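import Pool.Agent.U115.WN.Stm

/-!
# Project WN, package CMQ2
-/

set_option autoImplicit false

open scoped Classical
open Matrix

namespace Pool.Agent.U559.WN.CMQ2

open Pool.Agent.U115.WM Pool.Agent.U115.WN

/-- the reversed exponents -/
def er {k : ℕ} (E : ℕ) (e : Fin k → ℕ) (i : Fin k) : ℕ := E - e i.rev

theorem er_mono {k : ℕ} (E : ℕ) (e : Fin k → ℕ) (he : Monotone e) : Monotone (er E e) := by
  intro i j hij
  unfold er
  have := he (Fin.rev_le_rev.2 hij)
  omega

theorem er_sub {k : ℕ} {E : ℕ} {e : Fin k → ℕ} (hE : ∀ i, e i ≤ E) (i j : Fin k) :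
    er E e j - er E e i = e i.rev - e j.rev := by
  unfold er
  have h1 := hE i.rev
  have h2 := hE j.rev
  omega

theorem gap_er {k : ℕ} {E : ℕ} {e : Fin k → ℕ} (hE : ∀ i, e i ≤ E) : gap (er E e) = gap e := by
  unfold gap
  refine Finset.prod_bij' (fun p _ => (p.2.rev, p.1.rev)) (fun p _ => (p.2.rev, p.1.rev)) ?_ ?_ ?_ ?_ ?_
  · intro p hp
    simp only [Finset.mem_filter, Finset.mem_univ, true_and] at hp ⊢
    exact Fin.rev_lt_rev.2 hp
  · intro p hp
    simp only [Finset.mem_filter, Finset.mem_univ, true_and] at hp ⊢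
    exact Fin.rev_lt_rev.2 hp
  · intro p _
    simp
  · intro p _
    simp
  · intro p _
    rw [er_sub hE]

theorem spr_er {k : ℕ} {E : ℕ} {e : Fin k → ℕ} (hE : ∀ i, e i ≤ E) : spr (er E e) = spr e := by
  unfold spr
  apply le_antisymm
  · apply Finset.sup_le
    intro p _
    rw [er_sub hE]
    exact Finset.le_sup (f := fun p : Fin k × Fin k => e p.2 - e p.1)
      (Finset.mem_univ (p.2.rev, p.1.rev))
  · apply Finset.sup_le
    intro p _
    have h := Finset.le_sup (f := fun p : Fin k × Fin k => er E e p.2 - er E e p.1)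
      (Finset.mem_univ (p.2.rev, p.1.rev))
    simp only [er_sub hE, Fin.rev_rev] at h ⊢
    exact h

theorem vol_er {k : ℕ} {E : ℕ} {e : Fin k → ℕ} (hE : ∀ i, e i ≤ E) :
    vol e * vol (er E e) = ((2 : ℝ) ^ E) ^ k := by
  unfold vol
  have h1 : ∏ i, (2 : ℝ) ^ e i = ∏ i : Fin k, (2 : ℝ) ^ e i.rev :=
    (Fintype.prod_equiv Fin.revPerm _ _ (fun i => by simp)).symm
  rw [h1, ← Finset.prod_mul_distrib]
  have h2 : ∀ i ∈ (Finset.univ : Finset (Fin k)), (2 : ℝ) ^ e i.rev * (2 : ℝ) ^ er E e i = 2 ^ E := by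
    intro i _
    rw [← pow_add]
    congr 1
    have := hE i.rev
    unfold er
    omega
  rw [Finset.prod_congr rfl h2]
  simp

/-- the reversal of pairs -/
def rv (k : ℕ) : {p : Fin k × Fin k // p.1 ≤ p.2} ≃ {p : Fin k × Fin k // p.1 ≤ p.2} where
  toFun α := ⟨(α.1.2.rev, α.1.1.rev), Fin.rev_le_rev.2 α.2⟩
  invFun α := ⟨(α.1.2.rev, α.1.1.rev), Fin.rev_le_rev.2 α.2⟩
  left_inv α := by simp
  right_inv α := by simp

theorem t_CMQ2 : S_CMQ2 := by
  intro hS k e M hk he hM hnd
  have hk0 : 0 < k := by omega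
  set E : ℕ := e ⟨k - 1, by omega⟩ with hEdef
  have hE : ∀ i, e i ≤ E := by
    intro i
    apply he
    rw [Fin.le_def]
    simp only
    have := i.2
    omega
  have hM' : 0 < M * (2 : ℝ) ^ (2 * E) := by positivity
  have key := hS k (er E e) (M * 2 ^ (2 * E)) hk (er_mono E e he) hM' ?_
  · rw [gap_er hE, spr_er hE] at key
    have hprod : ∏ α : {p : Fin k × Fin k // p.1 ≤ p.2},
        max 1 (M * 2 ^ (2 * E) / 2 ^ (er E e α.1.1 + er E e α.1.2)) =
        ∏ α : {p : Fin k × Fin k // p.1 ≤ p.2}, max 1 (M * 2 ^ (e α.1.1 + e α.1.2)) := by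
      apply Fintype.prod_equiv (rv k)
      intro α
      congr 1
      have h1 := hE α.1.1.rev
      have h2 := hE α.1.2.rev
      have h3 : (2 : ℝ) ^ (2 * E) = 2 ^ (e α.1.2.rev + e α.1.1.rev) *
          2 ^ (er E e α.1.1 + er E e α.1.2) := by
        rw [← pow_add]
        congr 1
        unfold er
        omega
      rw [h3, ← mul_assoc, mul_div_assoc, div_self (by positivity), mul_one]
      rfl
    have hvol : (M * 2 ^ (2 * E)) ^ (k : ℝ) * vol (er E e) ^ (-2 : ℝ) =
        M ^ (k : ℝ) * vol e ^ (2 : ℝ) := by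
      have h1 := vol_er hE
      have h2 : 0 < vol (er E e) := by unfold vol; positivity
      rw [Real.rpow_natCast, Real.rpow_natCast, Real.rpow_neg h2.le, Real.rpow_two, Real.rpow_two]
      rw [mul_pow, ← div_eq_mul_inv, div_eq_iff (by positivity)]
      have h3 : ((2 : ℝ) ^ (2 * E)) ^ k = (((2 : ℝ) ^ E) ^ k) ^ 2 := by
        rw [← pow_mul, ← pow_mul, ← pow_mul]
        congr 1
        ring
      rw [h3, ← h1]
      ring
    rw [hprod, hvol] at key
    exact key
  · intro i
    have h1 := hnd i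
    have hi := hE i
    have hi' := hE i.rev
    have h3 : (2 : ℝ) ^ (2 * E) = 2 ^ (e i + e i.rev) *
        2 ^ (er E e i + er E e i.rev) := by
      rw [← pow_add]
      congr 1
      unfold er
      rw [Fin.rev_rev]
      omega
    rw [h3, ← mul_assoc]
    exact le_mul_of_one_le_left (by positivity) h1

end Pool.Agent.U559.WN.CMQ2
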